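import Pool.Agent.H225.EP2
import Pool.Agent.TH464.PW.Quad

/-!
# Exact patterns of almost prime values of `m^2 + 3m + 1`, at integers with restricted digits

Let `b ≥ 2` be a base and let the digits of an integer `n < b^K` be restricted: the `i`-th digit belongs
to a set `A i`, where the sets `A i` are arbitrary, depend on the place `i < K`, and have the only
property that the number `∏ |A i|` of these integers is at least `e^{-δK} b^K`, where the constant
`δ > 0` does not depend on `b`.  Let `N` be an arbitrary base point up to a fixed power of `b^K`, and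
`m = N + n`.  We consider ALL patterns `H` of `k` elements in an interval `[0, c K]` such that the
product of the values `v (n + h)`, `h ∈ H`, with `v m = m^2 + 3m + 1`, has no fixed prime divisor: the length of
the pattern may be comparable to the expected mean distance of the integers near `m` at which `v` is
prime.

The number of the `n` such that all `v (m + h)`, `h ∈ H`, are prime is at most `C V(H) ∏ |A i|`, with
the sieve product `V(H)` of the pattern.  And for at least `κ V(H) ∏ |A i|` of the `n` the integers `j` in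
`[m, m + c K]` for which `v j` has no prime factor `p ≤ b^{K/r}` are EXACTLY the `m + h`, `h ∈ H`, and
`v (m + h)` has at most `r` prime factors; in particular `v j` is not prime for the other `j`.

The method is a Brun–Hooley sieve with weights, whose level of distribution is obtained from the Fourier
transform of the set of the integers with restricted digits at rationals (large sieve in blocks of
digits), see `Pool/Agent/Y816/PD`; the other places are excluded by the upper bound for the patterns with
`k + 1` elements and an average of the sieve products (`Pool/Agent/H225/EP2`), where the collisions of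
the roots of the polynomial modulo primes are controlled by a resultant.
-/

set_option autoImplicit false

namespace Pool.Agent.Results.MP_d57abb_nt.ExactPatterns

open Finset Filter Polynomial

/-- The value `m^2 + 3m + 1`. -/
def v (m : ℕ) : ℕ := m ^ 2 + 3 * m + 1

/-- `H` is admissible: the product of the `v (n + h)`, `h ∈ H`, has no fixed prime divisor. -/
def Admissible (H : Finset ℕ) : Prop :=
  ∀ p : ℕ, p.Prime → ∃ n : ℕ, ∀ h ∈ H, ¬ p ∣ v (n + h)

open Classical in
/-- The number of the `n` modulo `p` for which `p` divides one of the `v (n + h)`, `h ∈ H`. -/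
noncomputable def nu (H : Finset ℕ) (p : ℕ) : ℕ :=
  ((range p).filter (fun n : ℕ => ∃ h ∈ H, p ∣ v (n + h))).card

/-- The product of `1 - nu p / p` over the primes `p ≤ x`. -/
noncomputable def V (H : Finset ℕ) (x : ℕ) : ℝ :=
  ∏ p ∈ (Icc 1 x).filter Nat.Prime, (1 - (nu H p : ℝ) / p)

open Classical in
/-- The number of the `n < b ^ K` in `T` whose `i`-th digit in base `b` belongs to `A i` for all
`i < K`. -/
noncomputable def count (b K : ℕ) (A : ℕ → Finset ℕ) (T : Set ℕ) : ℕ :=
  ((range (b ^ K)).filter (fun n => (∀ i < K, n / b ^ i % b ∈ A i) ∧ n ∈ T)).card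

/-- The number of choices of the digits. -/
noncomputable def choices (K : ℕ) (A : ℕ → Finset ℕ) : ℝ := ∏ i ∈ range K, ((A i).card : ℝ)

/-- All prime factors of `m` are larger than `z ^ (1 / r)`. -/
def Rough (r z m : ℕ) : Prop := ∀ p : ℕ, p.Prime → p ∣ m → z < p ^ r

open Pool.Agent.Y816.PD (NA ND ND_sub)
open Pool.Agent.W123.RU.Poly (Sys Q)
open Pool.Agent.W123.RP (Vq)
open Pool.Agent.H373R2.T7 (nuB)
open Pool.Agent.TH464.PW (quad quad_eval quad_deg quad_lead quad_irr)
open Pool.Agent.H225.EP (QH AdmP NT exactP)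

/-- the system -/
noncomputable def f : Fin 1 → ℤ[X] := fun _ => quad 1 3 1

lemma eval_f (i : Fin 1) (m : ℕ) : ((f i).eval (m : ℤ)).natAbs = v m := by
  unfold f v
  have e : (quad 1 3 1).eval (m : ℤ) = ((m ^ 2 + 3 * m + 1 : ℕ) : ℤ) := by
    rw [quad_eval]
    push_cast
    ring
  rw [e, Int.natAbs_natCast]

lemma irr : Irreducible (quad 1 3 1 : ℤ[X]) := by
  refine quad_irr 1 3 1 (by norm_num) ?_ ?_
  · rintro p hp ⟨h1, -, -⟩
    have h2 : p ∣ 1 := by exact_mod_cast h1
    exact hp.one_lt.ne' (Nat.dvd_one.1 h2)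
  · rintro ⟨x, hx⟩
    have h1 : x * x = 5 := by linarith
    have h2 : x ≤ 2 := by nlinarith
    have h3 : -2 ≤ x := by nlinarith
    interval_cases x <;> omega

lemma sys : Sys f where
  irr := fun _ => irr
  deg := fun _ => by
    change 0 < (quad 1 3 1).natDegree
    rw [quad_deg _ _ _ (by norm_num)]
    norm_num
  lead := fun _ => by
    change 0 < (quad 1 3 1).leadingCoeff
    rw [quad_lead _ _ _ (by norm_num)]
    norm_num
  inj := fun i j _ => Subsingleton.elim i j
  adm := fun p hp => by
    refine ⟨0, fun i hi => ?_⟩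
    rw [Int.natCast_dvd, eval_f] at hi
    have e : v 0 = 1 := rfl
    rw [e] at hi
    exact hp.one_lt.ne' (Nat.dvd_one.1 hi)

lemma nt : NT f := by
  intro i i' t ht h
  have h0 := congrArg (fun P : ℤ[X] => P.eval 0) h
  have h1 := congrArg (fun P : ℤ[X] => P.eval (-t)) h
  simp only [f, eval_comp, eval_add, eval_X, eval_C, quad_eval] at h0 h1
  have h2 : t ^ 2 = 0 := by nlinarith
  exact ht (by simpa using h2)

/-- the values are large -/
lemma ge (m : ℕ) : m ≤ v m := by
  unfold v
  nlinarith

lemma Q_iff {p : ℕ} (n : ℕ) : Q f p n ↔ p ∣ v n := by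
  unfold Q
  constructor
  · rintro ⟨i, hi⟩
    rw [Int.natCast_dvd, eval_f] at hi
    exact hi
  · intro h
    refine ⟨0, ?_⟩
    rw [Int.natCast_dvd, eval_f]
    exact h

lemma V_eq (H : Finset ℕ) (x : ℕ) : Vq (QH f H) x = V H x := by
  classical
  unfold Vq V nuB nu Pool.Agent.H373R2.T7.pz
  refine prod_congr rfl fun p _ => ?_
  have e : (range p).filter (fun n => QH f H p n) =
      (range p).filter (fun n : ℕ => ∃ h ∈ H, p ∣ v (n + h)) := by
    refine filter_congr fun n _ => exists_congr fun h => and_congr_right fun _ => ?_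
    exact Q_iff (n + h)
  congr 3
  convert congrArg Finset.card e

lemma adm {H : Finset ℕ} (h : Admissible H) : AdmP f H := by
  intro p hp
  obtain ⟨n, hn⟩ := h p hp
  refine ⟨n, fun ⟨x, hx, hd⟩ => hn x hx ((Q_iff _).1 hd)⟩

/-- **Exact patterns of almost prime values of `m^2 + 3m + 1` at integers with restricted digits,
uniformly in all admissible patterns with `k` elements and diameter up to a small multiple of the
expected mean distance of the places.** -/
theorem result (k D : ℕ) (hk : 1 ≤ k) :
    ∃ δ : ℝ, 0 < δ ∧ ∃ r₀ : ℕ, 2 ≤ r₀ ∧ ∀ r : ℕ, r₀ ≤ r → ∀ b : ℕ, 2 ≤ b →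
      ∃ κ C c : ℝ, 0 < κ ∧ 0 < C ∧ 0 < c ∧
      ∀ᶠ K : ℕ in atTop, ∀ N : ℕ, N ≤ b ^ (D * K) →
        ∀ H : Finset ℕ, H.card = k → (∀ h ∈ H, (h : ℝ) ≤ c * K) → Admissible H →
        ∀ A : ℕ → Finset ℕ, (∀ i < K, A i ⊆ range b) →
        (b : ℝ) ^ K ≤ Real.exp (δ * K) * choices K A →
        κ / (K : ℝ) ^ k ≤ V H (b ^ K) ∧
        ((∃ e ∈ A 0, ∀ h ∈ H, (v (N + e + h)).Coprime b) → (∃ e ∈ A (K - 1), e ≠ 0) →
          κ * choices K A * V H (b ^ K) ≤ count b K A {n | b ^ (K - 1) ≤ n ∧
            (∀ j : ℕ, (j : ℝ) ≤ c * K → (Rough r (b ^ K) (v (N + n + j)) ↔ j ∈ H)) ∧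
            ∀ h ∈ H, (v (N + n + h)).primeFactorsList.length ≤ r}) ∧
        (count b K A {n | ∀ h ∈ H, (v (N + n + h)).Prime} : ℝ) ≤
          C * choices K A * V H (b ^ K) := by
  obtain ⟨δ, hδ, r₀, hr₀, h⟩ := exactP le_rfl f sys nt k D hk
  refine ⟨δ, hδ, r₀, hr₀, fun r hr b hb => ?_⟩
  obtain ⟨κ, C, c, hκ, hC, hc, h1⟩ := h r hr b hb
  refine ⟨κ, C, c, hκ, hC, hc, ?_⟩
  filter_upwards [h1] with K hK N hN H hHk hHc hadm A hA hprod
  simp only [pow_one, one_mul] at hK
  obtain ⟨h2, h3, h4⟩ := hK N hN H hHk hHc (adm hadm) A hA hprod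
  rw [V_eq] at h2 h3 h4
  refine ⟨h2, fun hcop htop => ?_, le_trans (Nat.cast_le.2 ?_) h4⟩
  · obtain ⟨e, he, hcop⟩ := hcop
    refine (h3 ⟨e, he, fun h hh i => ?_⟩ htop).trans (Nat.cast_le.2 ?_)
    · rw [eval_f]
      exact hcop h hh
    · refine ND_sub fun n _ hn1 hn2 => ⟨hn1, hn2.1, fun j hj => ⟨fun hR => ?_, fun hj2 => ?_⟩,
        fun h hh => ?_⟩
      · by_contra hj2
        obtain ⟨i, p, hp, hpd, hpr⟩ := hn2.2.2 j hj hj2
        rw [Int.natCast_dvd, eval_f] at hpd
        exact absurd (hR p hp hpd) (by omega)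
      · intro p hp hpd
        refine (hn2.2.1 j hj2 0).1 p hp ?_
        rw [eval_f]
        exact hpd
      · have := (hn2.2.1 h hh 0).2
        rw [eval_f] at this
        exact this
  · refine ND_sub fun n _ hn1 hn2 => ⟨hn1, fun h hh i p hp hd => ?_⟩
    have hp0 : (v (N + n + h)).Prime := hn2 h hh
    rw [Int.natCast_dvd, eval_f] at hd
    rw [(Nat.prime_dvd_prime_iff_eq hp hp0).1 hd]
    have h5 : v (N + n + h) < v (N + n + h) ^ 2 := by nlinarith [hp0.two_le]
    have h6 : v (N + n + h) ^ 2 ≤ v (N + n + h) ^ r := Nat.pow_le_pow_right hp0.pos (by omega)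
    have h7 := ge (N + n + h)
    omega

end Pool.Agent.Results.MP_d57abb_nt.ExactPatterns
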